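import Pool.Agent.Helper29.SH.Goals

/-!
Packet 13051 (SH-FT2, MP_0a002a_al): `t_FT2`, by helper39.
-/

set_option autoImplicit false

namespace Pool.Agent.Helper39.SH

open Subgroup Pool.H83Shunkov Pool.Agent.Helper29.SH

theorem finOrder_of_mem {G : Type} [Group G] {K : Subgroup G} (hK : (K : Set G).Finite) {x : G}
    (hx : x ∈ K) : IsOfFinOrder x := by
  have : Finite K := hK
  have h := isOfFinOrder_of_finite (⟨x, hx⟩ : K)
  exact K.subtype.isOfFinOrder h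

theorem a_mem_Pr {G : Type} [Group G] (a g : G) : a ∈ Pr a g := subset_closure (by simp)

theorem conj_mem_Pr {G : Type} [Group G] (a g : G) : g⁻¹ * a * g ∈ Pr a g :=
  subset_closure (by simp)

theorem Pr_conj {G : Type} [Group G] {a g c x : G} (hc : c * a = a * c) (hx : x ∈ Pr a g) :
    c⁻¹ * x * c ∈ Pr a (g * c) := by
  have h1 : Pr a g ≤ (Pr a (g * c)).comap (MulAut.conj c⁻¹).toMonoidHom := by
    unfold Pr
    rw [closure_le]
    intro y hy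
    simp only [Set.mem_insert_iff, Set.mem_singleton_iff] at hy
    rw [SetLike.mem_coe, mem_comap]
    change (MulAut.conj c⁻¹) y ∈ _
    rw [MulAut.conj_apply, inv_inv]
    rcases hy with rfl | rfl
    · have : c⁻¹ * y * c = y := by rw [mul_assoc, ← hc, inv_mul_cancel_left]
      rw [this]
      exact a_mem_Pr _ _
    · have : c⁻¹ * (g⁻¹ * a * g) * c = (g * c)⁻¹ * a * (g * c) := by group
      rw [this]
      exact conj_mem_Pr _ _
  have h2 := h1 hx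
  rw [mem_comap] at h2
  change (MulAut.conj c⁻¹) x ∈ _ at h2
  rwa [MulAut.conj_apply, inv_inv] at h2

theorem t_FT2 (hFT1 : S_FT1) (hBIJ : S_BIJ) : S_FT2 := by
  intro G _ a N p hp hp2 hap hinv hfin hfix
  -- the finite invariant subgroups
  have hAinv : ∀ g, Inv a (Pr a g ⊓ N) := by
    intro g k hk
    have hk1 : k ∈ Pr a g := hk.1
    exact ⟨(Pr a g).mul_mem ((Pr a g).mul_mem ((Pr a g).inv_mem (a_mem_Pr a g)) hk1)
      (a_mem_Pr a g), hinv k hk.2⟩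
  have hAfin : ∀ g ∈ N, ((Pr a g ⊓ N : Subgroup G) : Set G).Finite := fun g hg =>
    (hfin g hg).subset fun x hx => hx.1
  have hAfpf : ∀ g ∈ N, FPF a (Pr a g ⊓ N) := fun g hg k hk hka =>
    hfix k hk.2 (finOrder_of_mem (hAfin g hg) hk) hka
  have hdec : ∀ g ∈ N, ∃ k ∈ Pr a g ⊓ N, (g * k⁻¹) * a = a * (g * k⁻¹) := by
    intro g hg
    have hy : a⁻¹ * g⁻¹ * a * g ∈ Pr a g ⊓ N := by
      constructor
      · have h1 := mul_mem (inv_mem (a_mem_Pr a g)) (conj_mem_Pr a g)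
        have h2 : a⁻¹ * (g⁻¹ * a * g) = a⁻¹ * g⁻¹ * a * g := by group
        rwa [h2] at h1
      · exact mul_mem (hinv _ (inv_mem hg)) hg
    obtain ⟨k, hk, hky⟩ := hBIJ G a (Pr a g ⊓ N) (hAfin g hg) (hAinv g) (hAfpf g hg) _ hy
    refine ⟨k, hk, ?_⟩
    have h3 : g⁻¹ * a * g = k⁻¹ * a * k := by
      have h4 : a * (a⁻¹ * g⁻¹ * a * g) = a * (a⁻¹ * k⁻¹ * a * k) := by rw [hky]
      have h5 : a * (a⁻¹ * g⁻¹ * a * g) = g⁻¹ * a * g := by group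
      have h6 : a * (a⁻¹ * k⁻¹ * a * k) = k⁻¹ * a * k := by group
      rw [← h5, ← h6, h4]
    have h7 : g * (g⁻¹ * a * g) * k⁻¹ = g * (k⁻¹ * a * k) * k⁻¹ := by rw [h3]
    have h8 : g * (g⁻¹ * a * g) * k⁻¹ = a * (g * k⁻¹) := by group
    have h9 : g * (k⁻¹ * a * k) * k⁻¹ = g * k⁻¹ * a := by group
    rw [← h8, h7, h9]
  -- the subgroup `F`
  let F : Subgroup G := Subgroup.ofDiv {x | x ∈ N ∧ ∃ g ∈ N, x ∈ Pr a g}
    ⟨1, one_mem N, 1, one_mem N, one_mem _⟩ (by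
      rintro x ⟨hx, g, hg, hxg⟩ z ⟨hz, h, hh, hzh⟩
      exact ⟨mul_mem hx (inv_mem hz), hFT1 G a N p hp hp2 hap hinv hfin hfix x z g h hg hh hx hxg
        hz hzh⟩)
  have hF : ∀ x, x ∈ F ↔ x ∈ N ∧ ∃ g ∈ N, x ∈ Pr a g := fun x => Iff.rfl
  have hFfin : ∀ x ∈ F, IsOfFinOrder x := by
    rintro x ⟨-, g, hg, hxg⟩
    exact finOrder_of_mem (hfin g hg) hxg
  have hnorm : ∀ n ∈ N, ∀ x ∈ F, n⁻¹ * x * n ∈ F := by
    rintro n hn x ⟨hx, g, hg, hxg⟩
    obtain ⟨k, hk, hka⟩ := hdec n hn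
    have hc : n * k⁻¹ ∈ N := mul_mem hn (inv_mem hk.2)
    have h1 : (n * k⁻¹)⁻¹ * x * (n * k⁻¹) ∈ F :=
      ⟨mul_mem (mul_mem (inv_mem hc) hx) hc, g * (n * k⁻¹), mul_mem hg hc, Pr_conj hka hxg⟩
    have hkF : k ∈ F := ⟨hk.2, n, hn, hk.1⟩
    have h2 := mul_mem (mul_mem (inv_mem hkF) h1) hkF
    have h3 : k⁻¹ * ((n * k⁻¹)⁻¹ * x * (n * k⁻¹)) * k = n⁻¹ * x * n := by group
    rwa [h3] at h2
  have hmain : ∀ t ∈ N, IsOfFinOrder t → t ∈ Pr a t ⊓ N := by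
    intro t ht hto
    obtain ⟨k, hk, hka⟩ := hdec t ht
    have hc : t * k⁻¹ ∈ N := mul_mem ht (inv_mem hk.2)
    have hkF : k ∈ F := ⟨hk.2, t, ht, hk.1⟩
    have hpow : ∀ m : ℕ, ∃ f ∈ F, (t * k⁻¹) ^ m = t ^ m * f := by
      intro m
      induction m with
      | zero => exact ⟨1, one_mem F, by simp⟩
      | succ m ih =>
        obtain ⟨f, hf, hfe⟩ := ih
        refine ⟨t⁻¹ * f * t * k⁻¹, mul_mem (hnorm t ht f hf) (inv_mem hkF), ?_⟩
        rw [pow_succ, hfe, pow_succ]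
        group
    obtain ⟨f, hf, hfe⟩ := hpow (orderOf t)
    rw [pow_orderOf_eq_one, one_mul] at hfe
    have h1 : IsOfFinOrder ((t * k⁻¹) ^ orderOf t) := by rw [hfe]; exact hFfin f hf
    have h2 : IsOfFinOrder (t * k⁻¹) := h1.of_pow hto.orderOf_pos.ne'
    have h3 := hfix _ hc h2 hka
    have h4 : t = k := by
      rw [mul_inv_eq_one] at h3
      exact h3
    rw [h4] at hk ⊢
    exact hk
  refine ⟨fun t ht hto => ⟨Pr a t ⊓ N, inf_le_right, hAfin t ht, hAinv t, hmain t ht hto⟩, ?_⟩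
  intro s hs t ht hso hto
  have h1 : s ∈ F := ⟨hs, s, hs, (hmain s hs hso).1⟩
  have h2 : t ∈ F := ⟨ht, t, ht, (hmain t ht hto).1⟩
  exact hFfin _ (mul_mem h1 h2)

end Pool.Agent.Helper39.SH
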