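import Pool.Agent.Helper29.SH.Goals

/-!
Packet 12981 (SH-LFQ, MP_0a002a_al): `t_LFQ`, by helper39.
-/

set_option autoImplicit false

namespace Pool.Agent.Helper39.SH

open Subgroup Pool.H83Shunkov Pool.Agent.Helper29.SH

theorem t_LFQ (hBIJ : S_BIJ) : S_LFQ := by
  intro G _ a N F _ ha hloc hfpf hgood
  set π := QuotientGroup.mk' N with hπ
  let M : Subgroup G := F ⊔ zpowers a
  let E : Subgroup (G ⧸ N) := M.map π
  have hEg : Good E := hgood.comp E.subtype E.subtype_injective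
  have haM : a ∈ M := (le_sup_right : zpowers a ≤ M) (mem_zpowers a)
  have hFM : F ≤ M := le_sup_left
  have hmem : ∀ m ∈ M, π m ∈ E := fun m hm => mem_map_of_mem π hm
  let a' : E := ⟨π a, hmem a haM⟩
  have hpf : PairFinite a' := by
    rintro ⟨g, h, hh, rfl⟩
    have h1 := ha h
    have h2 : ((closure ({a, h⁻¹ * a * h} : Set G) : Subgroup G).map π : Set (G ⧸ N)).Finite := by
      rw [Subgroup.coe_map]
      exact h1.image _
    have h3 : (closure ({a', (⟨π h, hmem h hh⟩ : E)⁻¹ * a' * ⟨π h, hmem h hh⟩} : Set E)).map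
        E.subtype = (closure ({a, h⁻¹ * a * h} : Set G)).map π := by
      rw [MonoidHom.map_closure, MonoidHom.map_closure, Set.image_pair, Set.image_pair]
      simp only [map_mul, map_inv]
      rfl
    have h4 : (((closure ({a', (⟨π h, hmem h hh⟩ : E)⁻¹ * a' * ⟨π h, hmem h hh⟩} : Set E)).map
        E.subtype : Subgroup (G ⧸ N)) : Set (G ⧸ N)).Finite := by
      rw [h3]; exact h2
    rw [Subgroup.coe_map] at h4
    exact h4.of_finite_image E.subtype_injective.injOn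
  have har : a' ∈ lfRad E := hEg.X a' hpf
  refine IsLocFin.mono ?_ ((isLocFin_lfRad (G := E)).map E.subtype)
  rintro _ ⟨f, hf, rfl⟩
  obtain ⟨K, hK1, hK2, hK3, hK4⟩ := hloc f hf
  obtain ⟨k, hk, hfk⟩ := hBIJ G a K hK2 hK3 (fun x hx => hfpf x (hK1 hx)) f hK4
  have hkM : k ∈ M := hFM (hK1 hk)
  refine ⟨a'⁻¹ * ((⟨π k, hmem k hkM⟩ : E)⁻¹ * a' * ⟨π k, hmem k hkM⟩), ?_, ?_⟩
  · refine mul_mem (inv_mem har) ?_
    have hn : (lfRad E).Normal := inferInstance
    have := hn.conj_mem a' har (⟨π k, hmem k hkM⟩ : E)⁻¹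
    rwa [inv_inv] at this
  · rw [hfk]
    simp only [map_mul, map_inv]
    change (π a)⁻¹ * ((π k)⁻¹ * π a * π k) = (π a)⁻¹ * (π k)⁻¹ * π a * π k
    group

end Pool.Agent.Helper39.SH
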